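import Mathlib

set_option autoImplicit false

namespace Pool.Agent.Helper98.RegEnd

open MvPolynomial
open scoped LinearAlgebra.Projectivization

/-- The self-map of affine space `ℂⁿ` given by an `n`-tuple of polynomials in `n` variables. -/
noncomputable def evalMap {n : ℕ} (f : Fin n → MvPolynomial (Fin n) ℂ) (x : Fin n → ℂ) :
    Fin n → ℂ :=
  fun i => eval x (f i)

/-- The self-map of projective space `ℙⁿ⁻¹(ℂ)` given by an `n`-tuple `F` of forms of the same
degree without common zeros: `[x] ↦ [F x]`.  (For a tuple `F` having common zeros, the value of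
the map at these is irrelevant.) -/
noncomputable def projMap {n : ℕ} (F : Fin n → MvPolynomial (Fin n) ℂ)
    (p : ℙ ℂ (Fin n → ℂ)) : ℙ ℂ (Fin n → ℂ) :=
  open Classical in
  if h : evalMap F p.rep ≠ 0 then Projectivization.mk ℂ (evalMap F p.rep) h else p

/-- The polynomials have no common zero besides the origin. -/
def NoCommonZero {n : ℕ} (F : Fin n → MvPolynomial (Fin n) ℂ) : Prop :=
  ∀ x : Fin n → ℂ, evalMap F x = 0 → x = 0

/-- The homogeneous parts of degree `d` of the components of `f`. -/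
noncomputable def leading {n : ℕ} (d : ℕ) (f : Fin n → MvPolynomial (Fin n) ℂ) :
    Fin n → MvPolynomial (Fin n) ℂ :=
  fun i => homogeneousComponent d (f i)

/-- `f` is a regular polynomial endomorphism of `𝔸ᴺ` of degree `d`: the maximum of the degrees
of its components is `d`, and the homogeneous parts of degree `d` have no common zero
besides `0`. -/
def IsRegularEnd {N : ℕ} (d : ℕ) (f : Fin N → MvPolynomial (Fin N) ℂ) : Prop :=
  (Finset.univ.sup fun i => (f i).totalDegree) = d ∧ NoCommonZero (leading d f)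

/-- `f` and `g` are conjugate by an affine automorphism of `𝔸ᴺ`. -/
def AffineConj {N : ℕ} (f g : Fin N → MvPolynomial (Fin N) ℂ) : Prop :=
  ∃ e : (Fin N → ℂ) ≃ᵃ[ℂ] (Fin N → ℂ), ∀ x, e (evalMap f x) = evalMap g (e x)

/-- The self-maps `g` and `h` of `ℙⁿ⁻¹(ℂ)` are conjugate by an element of `PGLₙ(ℂ)`. -/
def PGLConj {n : ℕ} (g h : ℙ ℂ (Fin n → ℂ) → ℙ ℂ (Fin n → ℂ)) : Prop :=
  ∃ A : (Fin n → ℂ) ≃ₗ[ℂ] (Fin n → ℂ), ∀ p,
    Projectivization.map A.toLinearMap A.injective (g p) =
      h (Projectivization.map A.toLinearMap A.injective p)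

/-- Homogenisation to degree `d` of a polynomial of degree at most `d`, with the help of an
additional variable `X 0`; the old variables `X i` become `X i.succ`. -/
noncomputable def homog {N : ℕ} (d : ℕ) (p : MvPolynomial (Fin N) ℂ) :
    MvPolynomial (Fin (N + 1)) ℂ :=
  ∑ a ∈ p.support, monomial (Finsupp.cons (d - a.degree) a) (coeff a p)

/-- The forms of degree `d` which define the extension of the polynomial endomorphism `f` of
`𝔸ᴺ` of degree `d` to `ℙᴺ`. -/
noncomputable def extension {N : ℕ} (d : ℕ) (f : Fin N → MvPolynomial (Fin N) ℂ) :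
    Fin (N + 1) → MvPolynomial (Fin (N + 1)) ℂ :=
  Fin.cons (X 0 ^ d) fun i => homog d (f i)

/-- The critical locus of the endomorphism of projective space defined by `F`: the zeros of the
Jacobian determinant. -/
def Crit {n : ℕ} (F : Fin n → MvPolynomial (Fin n) ℂ) : Set (ℙ ℂ (Fin n → ℂ)) :=
  {p | eval p.rep (Matrix.of fun i j => pderiv j (F i)).det = 0}

/-- The postcritical set `⋃_{n ≥ 1} gⁿ(Crit g)` of the endomorphism `g` of projective space
defined by `F`. -/
def PostCrit {n : ℕ} (F : Fin n → MvPolynomial (Fin n) ℂ) : Set (ℙ ℂ (Fin n → ℂ)) :=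
  ⋃ k : ℕ, ⋃ _ : 1 ≤ k, (projMap F)^[k] '' Crit F

/-- `Z` is an algebraic subset of projective space: the common zeros of a set of homogeneous
polynomials. -/
def IsAlgebraicSet {n : ℕ} (Z : Set (ℙ ℂ (Fin n → ℂ))) : Prop :=
  ∃ S : Set (MvPolynomial (Fin n) ℂ), (∀ q ∈ S, ∃ k, q.IsHomogeneous k) ∧
    Z = {p | ∀ q ∈ S, eval p.rep q = 0}

/-- The polynomial endomorphism `f` of `𝔸ᴺ` of degree `d`, extended to `ℙᴺ`, is postcritically
finite: the postcritical set is an algebraic subset of `ℙᴺ`. -/
def IsPCF {N : ℕ} (d : ℕ) (f : Fin N → MvPolynomial (Fin N) ℂ) : Prop :=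
  IsAlgebraicSet (PostCrit (extension d f))

end Pool.Agent.Helper98.RegEnd
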