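import Mathlib
import Pool.Agent.Helper98.RegEnd.Defs
import Pool.Agent.Helper98.PCF.Core

set_option autoImplicit false

namespace Pool.Agent.Helper98.RegEnd

open MvPolynomial
open scoped LinearAlgebra.Projectivization
open Pool.Agent.Helper98.PCF

section Proj

variable {n : ℕ}

theorem evalMap_eq_pmap (f : Fin n → MvPolynomial (Fin n) ℂ) : evalMap f = pmap f := rfl

theorem evalMap_smul {d : ℕ} {F : Fin n → MvPolynomial (Fin n) ℂ}
    (hF : ∀ i, (F i).IsHomogeneous d) (a : ℂ) (x : Fin n → ℂ) :
    evalMap F (a • x) = a ^ d • evalMap F x := by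
  funext i
  exact eval_smul_homogeneous (hF i) a x

theorem projMap_mk {d : ℕ} {F : Fin n → MvPolynomial (Fin n) ℂ}
    (hF : ∀ i, (F i).IsHomogeneous d) (v : Fin n → ℂ) (hv : v ≠ 0) (hFv : evalMap F v ≠ 0) :
    projMap F (Projectivization.mk ℂ v hv) = Projectivization.mk ℂ (evalMap F v) hFv := by
  obtain ⟨a, ha⟩ := Projectivization.exists_smul_eq_mk_rep ℂ v hv
  have h1 : evalMap F (Projectivization.mk ℂ v hv).rep = (a : ℂ) ^ d • evalMap F v := by
    rw [← ha]
    exact evalMap_smul hF (a : ℂ) v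
  have h2 : evalMap F (Projectivization.mk ℂ v hv).rep ≠ 0 := by
    rw [h1]
    exact smul_ne_zero (pow_ne_zero _ a.ne_zero) hFv
  rw [projMap, dif_pos h2, Projectivization.mk_eq_mk_iff']
  exact ⟨(a : ℂ) ^ d, h1.symm⟩

theorem PGLConj.refl (g : ℙ ℂ (Fin n → ℂ) → ℙ ℂ (Fin n → ℂ)) : PGLConj g g := by
  refine ⟨LinearEquiv.refl ℂ _, fun p => ?_⟩
  have h : ∀ q : ℙ ℂ (Fin n → ℂ), Projectivization.map
      (LinearEquiv.refl ℂ (Fin n → ℂ)).toLinearMap (LinearEquiv.refl ℂ _).injective q = q := by
    intro q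
    exact congrFun Projectivization.map_id q
  rw [h, h]

theorem map_symm_map (A : (Fin n → ℂ) ≃ₗ[ℂ] (Fin n → ℂ)) (q : ℙ ℂ (Fin n → ℂ)) :
    Projectivization.map A.symm.toLinearMap A.symm.injective
      (Projectivization.map A.toLinearMap A.injective q) = q := by
  induction q using Projectivization.ind with
  | h v hv =>
    rw [Projectivization.map_mk, Projectivization.map_mk]
    congr 1
    exact A.symm_apply_apply v

theorem map_map_symm (A : (Fin n → ℂ) ≃ₗ[ℂ] (Fin n → ℂ)) (q : ℙ ℂ (Fin n → ℂ)) :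
    Projectivization.map A.toLinearMap A.injective
      (Projectivization.map A.symm.toLinearMap A.symm.injective q) = q := by
  induction q using Projectivization.ind with
  | h v hv =>
    rw [Projectivization.map_mk, Projectivization.map_mk]
    congr 1
    exact A.apply_symm_apply v

theorem PGLConj.symm {g h : ℙ ℂ (Fin n → ℂ) → ℙ ℂ (Fin n → ℂ)} (H : PGLConj g h) :
    PGLConj h g := by
  obtain ⟨A, hA⟩ := H
  refine ⟨A.symm, fun p => ?_⟩
  have h1 := hA (Projectivization.map A.symm.toLinearMap A.symm.injective p)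
  rw [map_map_symm] at h1
  rw [← h1, map_symm_map]

theorem PGLConj.trans {g h k : ℙ ℂ (Fin n → ℂ) → ℙ ℂ (Fin n → ℂ)} (H : PGLConj g h)
    (H' : PGLConj h k) : PGLConj g k := by
  obtain ⟨A, hA⟩ := H
  obtain ⟨B, hB⟩ := H'
  have h : ∀ q : ℙ ℂ (Fin n → ℂ), Projectivization.map (A.trans B).toLinearMap
      (A.trans B).injective q = Projectivization.map B.toLinearMap B.injective
      (Projectivization.map A.toLinearMap A.injective q) := by
    intro q
    induction q using Projectivization.ind with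
    | h v hv => rfl
  refine ⟨A.trans B, fun p => ?_⟩
  rw [h, h, hA, hB]

end Proj

section Affine

variable {N : ℕ}

theorem AffineConj.refl (f : Fin N → MvPolynomial (Fin N) ℂ) : AffineConj f f :=
  ⟨AffineEquiv.refl ℂ _, fun _ => rfl⟩

theorem AffineConj.symm {f g : Fin N → MvPolynomial (Fin N) ℂ} (h : AffineConj f g) :
    AffineConj g f := by
  obtain ⟨e, he⟩ := h
  refine ⟨e.symm, fun y => ?_⟩
  have := he (e.symm y)
  rw [AffineEquiv.apply_symm_apply] at this
  rw [← this, AffineEquiv.symm_apply_apply]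

theorem AffineConj.trans {f g h : Fin N → MvPolynomial (Fin N) ℂ} (H : AffineConj f g)
    (H' : AffineConj g h) : AffineConj f h := by
  obtain ⟨e, he⟩ := H
  obtain ⟨e', he'⟩ := H'
  refine ⟨e.trans e', fun x => ?_⟩
  rw [AffineEquiv.trans_apply, AffineEquiv.trans_apply, he, he']

/-- matrix form of affine conjugacy -/
theorem AffineConj.affConj {f g : Fin N → MvPolynomial (Fin N) ℂ} (h : AffineConj f g) :
    AffConj g f := by
  obtain ⟨e, he⟩ := h
  have hx : ∀ x, e x = fun j => (LinearMap.toMatrix' e.linear.toLinearMap).mulVec x j + e 0 j := by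
    intro x
    have h1 : e x = e.linear x + e 0 := by
      have := e.map_vadd 0 x
      rw [vadd_eq_add, add_zero, vadd_eq_add] at this
      exact this
    rw [LinearMap.toMatrix'_mulVec]
    exact h1
  refine ⟨LinearMap.toMatrix' e.linear.toLinearMap, e 0, ?_, ?_⟩
  · rw [LinearMap.det_toMatrix']
    exact LinearEquiv.isUnit_det' e.linear
  · apply isConj_of_eval
    intro x i
    have h1 := he x
    rw [hx (evalMap f x), hx x] at h1
    exact (congrFun h1 i).symm

theorem affineConj_of_affConj {f g : Fin N → MvPolynomial (Fin N) ℂ} (h : AffConj g f) :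
    AffineConj f g := by
  obtain ⟨L, b, hL, hc⟩ := h
  have hbij : Function.Bijective (Matrix.toLin' L) := by
    rw [← Module.End.isUnit_iff, LinearMap.isUnit_iff_isUnit_det, LinearMap.det_toLin']
    exact hL
  let e₀ : (Fin N → ℂ) ≃ₗ[ℂ] (Fin N → ℂ) := LinearEquiv.ofBijective (Matrix.toLin' L) hbij
  let e : (Fin N → ℂ) ≃ᵃ[ℂ] (Fin N → ℂ) :=
    e₀.toAffineEquiv.trans (AffineEquiv.constVAdd ℂ (Fin N → ℂ) b)
  have he : ∀ x, e x = fun j => L.mulVec x j + b j := by
    intro x
    funext j
    show (b +ᵥ (e₀ x)) j = _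
    rw [vadd_eq_add, Pi.add_apply, add_comm]
    rfl
  refine ⟨e, fun x => ?_⟩
  rw [he, he]
  funext i
  exact (hc.eval x i).symm

theorem affineConj_iff {f g : Fin N → MvPolynomial (Fin N) ℂ} : AffineConj f g ↔ AffConj g f :=
  ⟨AffineConj.affConj, affineConj_of_affConj⟩

theorem leading_eq_topf (d : ℕ) (f : Fin N → MvPolynomial (Fin N) ℂ) :
    leading d f = topf d f := rfl

theorem isRegularEnd_iff (hN : 0 < N) {d : ℕ} {f : Fin N → MvPolynomial (Fin N) ℂ} :
    IsRegularEnd d f ↔ Regular d f := by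
  constructor
  · rintro ⟨h1, h2⟩
    refine ⟨fun i => ?_, fun x hx => h2 x (funext hx)⟩
    rw [← h1]
    exact Finset.le_sup (f := fun i => (f i).totalDegree) (Finset.mem_univ i)
  · rintro ⟨h1, h2⟩
    refine ⟨le_antisymm (Finset.sup_le fun i _ => h1 i) ?_, fun x hx => h2 x (congrFun hx)⟩
    by_contra hlt
    push Not at hlt
    have h3 : ∀ i, homogeneousComponent d (f i) = 0 := by
      intro i
      apply hc_of_lt
      exact lt_of_le_of_lt (Finset.le_sup (f := fun i => (f i).totalDegree) (Finset.mem_univ i))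
        hlt
    have h4 := h2 1 (fun i => by rw [h3, map_zero])
    have h5 := congrFun h4 ⟨0, hN⟩
    exact one_ne_zero h5

theorem pglConj_of_affineConj {d : ℕ} (hd : 0 < d) {f g : Fin N → MvPolynomial (Fin N) ℂ}
    (hf : IsRegularEnd d f) (hg : IsRegularEnd d g) (h : AffineConj f g) :
    PGLConj (projMap (leading d f)) (projMap (leading d g)) := by
  rcases Nat.eq_zero_or_pos N with hN | hN
  · subst hN
    refine ⟨LinearEquiv.refl ℂ _, fun p => ?_⟩
    exact absurd (Subsingleton.elim _ _) p.rep_nonzero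
  obtain ⟨L, b, hL, hc⟩ := h.affConj
  have hbij : Function.Bijective (Matrix.toLin' L) := by
    rw [← Module.End.isUnit_iff, LinearMap.isUnit_iff_isUnit_det, LinearMap.det_toLin']
    exact hL
  let A : (Fin N → ℂ) ≃ₗ[ℂ] (Fin N → ℂ) := LinearEquiv.ofBijective (Matrix.toLin' L) hbij
  have htop : ∀ x, evalMap (leading d g) (A x) = A (evalMap (leading d f) x) := by
    intro x
    funext i
    exact hc.top hd ((isRegularEnd_iff hN).1 hg).1 x i
  refine ⟨A, fun p => ?_⟩
  induction p using Projectivization.ind with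
  | h v hv =>
    have h1 : evalMap (leading d f) v ≠ 0 := fun h0 => hv (hf.2 v h0)
    have hAv : A v ≠ 0 := fun h0 => hv (A.map_eq_zero_iff.1 h0)
    have h2 : evalMap (leading d g) (A v) ≠ 0 := fun h0 => hAv (hg.2 _ h0)
    have h4 := projMap_mk (F := leading d f) (topf_homogeneous d f) v hv h1
    have h3 := projMap_mk (F := leading d g) (topf_homogeneous d g) (A v) hAv h2
    rw [h4, Projectivization.map_mk, Projectivization.map_mk]
    refine Eq.trans ?_ h3.symm
    congr 1
    exact (htop v).symm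

end Affine

end Pool.Agent.Helper98.RegEnd
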