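import Mathlib
import Pool.Agent.Helper98.RegEnd.Bridge

set_option autoImplicit false

namespace Pool.Agent.Helper98.RegEnd

open MvPolynomial
open scoped LinearAlgebra.Projectivization

/-- The regular polynomial endomorphisms of `𝔸ᴺ` of degree `d`. -/
def RegularEnd (d N : ℕ) : Type :=
  {f : Fin N → MvPolynomial (Fin N) ℂ // IsRegularEnd d f}

/-- Conjugacy by affine automorphisms. -/
def affineSetoid (d N : ℕ) : Setoid (RegularEnd d N) where
  r f g := AffineConj f.1 g.1
  iseqv := ⟨fun f => AffineConj.refl f.1, AffineConj.symm, AffineConj.trans⟩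

/-- The space `R_d^N` of regular polynomial endomorphisms of `𝔸ᴺ` of degree `d` up to conjugacy
by affine automorphisms. -/
def RSpace (d N : ℕ) : Type := Quotient (affineSetoid d N)

/-- The class in `R_d^N` of a regular polynomial endomorphism. -/
def RSpace.mk {d N : ℕ} (f : RegularEnd d N) : RSpace d N := Quotient.mk (affineSetoid d N) f

/-- The endomorphisms of `ℙᴺ⁻¹` of degree `d`, given by `N` forms of degree `d` in `N` variables
without common zero. -/
def ProjEnd (d N : ℕ) : Type :=
  {F : Fin N → MvPolynomial (Fin N) ℂ // (∀ i, (F i).IsHomogeneous d) ∧ NoCommonZero F}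

/-- Conjugacy by `PGL_N`. -/
def projSetoid (d N : ℕ) : Setoid (ProjEnd d N) where
  r F G := PGLConj (projMap F.1) (projMap G.1)
  iseqv := ⟨fun _ => PGLConj.refl _, PGLConj.symm, PGLConj.trans⟩

/-- The space `M_d^{N-1}` of endomorphisms of `ℙᴺ⁻¹` of degree `d` up to conjugacy by `PGL_N`. -/
def MSpace (d N : ℕ) : Type := Quotient (projSetoid d N)

/-- The restriction of a regular polynomial endomorphism to the hyperplane at infinity. -/
noncomputable def restrict {d N : ℕ} (f : RegularEnd d N) : ProjEnd d N :=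
  ⟨leading d f.1, fun i => homogeneousComponent_isHomogeneous d (f.1 i), f.2.2⟩

theorem restrict_conj {d N : ℕ} (hd : 2 ≤ d) (f g : RegularEnd d N)
    (h : AffineConj f.1 g.1) : PGLConj (projMap (restrict f).1) (projMap (restrict g).1) :=
  pglConj_of_affineConj (by omega) f.2 g.2 h

/-- The map `π : R_d^N → M_d^{N-1}`. -/
noncomputable def piMap {d N : ℕ} (hd : 2 ≤ d) : RSpace d N → MSpace d N :=
  Quotient.map restrict (restrict_conj hd)

/-- The PCF locus of `R_d^N`. -/
def PCFLocus (d N : ℕ) : Set (RSpace d N) :=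
  {x | ∃ f : RegularEnd d N, IsPCF d f.1 ∧ RSpace.mk f = x}

/-- The coefficients of a polynomial endomorphism of `𝔸ᴺ`. -/
def coeffs {N : ℕ} (f : Fin N → MvPolynomial (Fin N) ℂ) (p : Fin N × (Fin N →₀ ℕ)) : ℂ :=
  coeff p.2 (f p.1)

/-- `Z ⊆ R_d^N` is constructible: the set of regular polynomial endomorphisms with class in `Z`
is a finite union of sets defined by the vanishing of polynomials in the coefficients and the
non-vanishing of one polynomial in the coefficients. -/
def IsConstructible {d N : ℕ} (Z : Set (RSpace d N)) : Prop :=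
  ∃ (r : ℕ) (S : Fin r → Set (MvPolynomial (Fin N × (Fin N →₀ ℕ)) ℂ))
    (q : Fin r → MvPolynomial (Fin N × (Fin N →₀ ℕ)) ℂ),
    ∀ f : RegularEnd d N, RSpace.mk f ∈ Z ↔
      ∃ j, (∀ p ∈ S j, eval (coeffs f.1) p = 0) ∧ eval (coeffs f.1) (q j) ≠ 0

/-- A map from the closed points of the affine variety `Spec B` to `R_d^N` has a closed graph,
if the set of pairs `(t, f)`, where `f` is a regular polynomial endomorphism with class `φ t`,
is defined by the vanishing of polynomials in the coefficients of `f` with coefficients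
in `B`. -/
def HasClosedGraph {d N : ℕ} {B : Type} [CommRing B] [Algebra ℂ B]
    (φ : (B →ₐ[ℂ] ℂ) → RSpace d N) : Prop :=
  ∃ S : Set (MvPolynomial (Fin N × (Fin N →₀ ℕ)) B),
    ∀ (t : B →ₐ[ℂ] ℂ) (f : RegularEnd d N), φ t = RSpace.mk f ↔
      ∀ p ∈ S, eval₂ (t : B →+* ℂ) (coeffs f.1) p = 0

/-- The member at the closed point `t` of a family of polynomial endomorphisms of `𝔸ᴺ`
parametrised by `Spec B`. -/
noncomputable def member {N : ℕ} {B : Type} [CommRing B] [Algebra ℂ B]
    (f : Fin N → MvPolynomial (Fin N) B) (t : B →ₐ[ℂ] ℂ) : Fin N → MvPolynomial (Fin N) ℂ :=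
  fun i => map (t : B →+* ℂ) (f i)

end Pool.Agent.Helper98.RegEnd
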