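import Mathlib
import Pool.Agent.Helper98.RegEnd.Bridge

set_option autoImplicit false

namespace Pool.Agent.Helper98.RegEnd

open MvPolynomial
open scoped LinearAlgebra.Projectivization
open Pool.Agent.Helper98.PCF

/-- Chain rule for a derivation of a polynomial ring. -/
theorem deriv_aeval' {τ σ R : Type*} [Fintype τ] [CommRing R]
    (D : Derivation R (MvPolynomial σ R) (MvPolynomial σ R)) (F : τ → MvPolynomial σ R)
    (p : MvPolynomial τ R) :
    D (aeval F p) = ∑ j, aeval F (pderiv j p) * D (F j) := by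
  classical
  induction p using MvPolynomial.induction_on with
  | C a =>
    rw [aeval_C]
    have h1 : D (algebraMap R (MvPolynomial σ R) a) = 0 := D.map_algebraMap a
    rw [h1]
    simp [pderiv_C]
  | add p q hp hq =>
    rw [map_add, map_add, hp, hq, ← Finset.sum_add_distrib]
    refine Finset.sum_congr rfl fun j _ => ?_
    rw [map_add, map_add, add_mul]
  | mul_X p i hp =>
    rw [map_mul, aeval_X, D.leibniz, hp]
    have h1 : ∀ j, aeval F (pderiv j (p * X i)) * D (F j) =
        aeval F p * (if j = i then D (F j) else 0) + F i * (aeval F (pderiv j p) * D (F j)) := by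
      intro j
      rw [pderiv_mul, map_add, map_mul, map_mul, aeval_X]
      rcases eq_or_ne j i with rfl | hne
      · rw [pderiv_X_self, map_one, if_pos rfl]; ring
      · rw [pderiv_X_of_ne hne.symm, map_zero, if_neg hne]; ring
    rw [Finset.sum_congr rfl fun j _ => h1 j, Finset.sum_add_distrib, ← Finset.mul_sum,
      ← Finset.mul_sum, Finset.sum_ite_eq' Finset.univ i]
    simp only [Finset.mem_univ, if_true, smul_eq_mul]

instance uncountableComplex : Uncountable ℂ := by
  rw [← not_countable_iff]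
  intro h
  exact not_countable_complex Set.countable_univ

section Homog

variable {N : ℕ}

theorem degree_cons (k : ℕ) (a : Fin N →₀ ℕ) : (Finsupp.cons k a).degree = k + a.degree := by
  rw [Finsupp.degree_eq_sum, Finsupp.degree_eq_sum, Fin.sum_univ_succ, Finsupp.cons_zero]
  simp only [Finsupp.cons_succ]

theorem homog_homogeneous {d : ℕ} {p : MvPolynomial (Fin N) ℂ} (hp : p.totalDegree ≤ d) :
    (homog d p).IsHomogeneous d := by
  refine IsHomogeneous.sum _ _ _ fun a ha => ?_
  apply isHomogeneous_monomial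
  have h1 : a.degree ≤ d := (degree_le_totalDegree ha).trans hp
  rw [degree_cons]
  omega

theorem extension_homogeneous {d : ℕ} {f : Fin N → MvPolynomial (Fin N) ℂ}
    (hf : ∀ i, (f i).totalDegree ≤ d) (i : Fin (N + 1)) : (extension d f i).IsHomogeneous d := by
  refine Fin.cases ?_ (fun i => ?_) i
  · exact isHomogeneous_X_pow 0 d
  · exact homog_homogeneous (hf i)

/-- dehomogenisation -/
noncomputable def deh : MvPolynomial (Fin (N + 1)) ℂ →ₐ[ℂ] MvPolynomial (Fin N) ℂ :=
  aeval (Fin.cons 1 X)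

theorem eval_deh (x : Fin N → ℂ) (P : MvPolynomial (Fin (N + 1)) ℂ) :
    eval x (deh P) = eval (Fin.cons 1 x : Fin (N + 1) → ℂ) P := by
  have h : (eval x : MvPolynomial (Fin N) ℂ →+* ℂ).comp
      (deh : MvPolynomial (Fin (N + 1)) ℂ →ₐ[ℂ] MvPolynomial (Fin N) ℂ).toRingHom =
      eval (Fin.cons 1 x : Fin (N + 1) → ℂ) := by
    apply MvPolynomial.ringHom_ext
    · intro r
      simp [deh]
    · intro i
      refine Fin.cases ?_ (fun i => ?_) i
      · simp [deh]
      · simp [deh]
  exact RingHom.congr_fun h P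

theorem deh_homog (d : ℕ) (p : MvPolynomial (Fin N) ℂ) : deh (homog d p) = p := by
  rw [homog, map_sum]
  conv_rhs => rw [← support_sum_monomial_coeff p]
  refine Finset.sum_congr rfl fun a _ => ?_
  rw [deh, aeval_monomial_eq, Fin.prod_univ_succ]
  simp only [Finsupp.cons_zero, Finsupp.cons_succ, Fin.cons_zero, Fin.cons_succ, one_pow, one_mul]
  have := aeval_monomial_eq (X : Fin N → MvPolynomial (Fin N) ℂ) a (coeff a p)
  rw [aeval_X_left] at this
  exact this.symm

theorem eval_homog (d : ℕ) (p : MvPolynomial (Fin N) ℂ) (x : Fin N → ℂ) :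
    eval (Fin.cons 1 x : Fin (N + 1) → ℂ) (homog d p) = eval x p := by
  rw [← eval_deh, deh_homog]

theorem deh_pderiv_succ (j : Fin N) (P : MvPolynomial (Fin (N + 1)) ℂ) :
    deh (pderiv j.succ P) = pderiv j (deh P) := by
  rw [deh, deriv_aeval', Fin.sum_univ_succ, Fin.cons_zero, Derivation.map_one_eq_zero, mul_zero,
    zero_add, Finset.sum_eq_single j]
  · rw [Fin.cons_succ, pderiv_X_self, mul_one]
  · intro m _ hm
    rw [Fin.cons_succ, pderiv_X_of_ne hm, mul_zero]
  · intro h; exact absurd (Finset.mem_univ j) h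

theorem evalMap_extension (d : ℕ) (f : Fin N → MvPolynomial (Fin N) ℂ) (x : Fin N → ℂ) :
    evalMap (extension d f) (Fin.cons 1 x) = Fin.cons 1 (evalMap f x) := by
  funext i
  refine Fin.cases ?_ (fun i => ?_) i
  · simp [evalMap, extension]
  · rw [Fin.cons_succ, evalMap, extension, Fin.cons_succ, eval_homog]
    rfl

theorem cons_one_ne_zero (x : Fin N → ℂ) : (Fin.cons 1 x : Fin (N + 1) → ℂ) ≠ 0 := by
  intro h
  have := congrFun h 0
  exact one_ne_zero this

/-- affine points of projective space -/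
noncomputable def apt (x : Fin N → ℂ) : ℙ ℂ (Fin (N + 1) → ℂ) :=
  Projectivization.mk ℂ (Fin.cons 1 x) (cons_one_ne_zero x)

theorem apt_injective {x y : Fin N → ℂ} (h : apt x = apt y) : x = y := by
  rw [apt, apt, Projectivization.mk_eq_mk_iff'] at h
  obtain ⟨a, ha⟩ := h
  have h0 := congrFun ha 0
  rw [Pi.smul_apply, Fin.cons_zero, Fin.cons_zero, smul_eq_mul, mul_one] at h0
  subst h0
  rw [one_smul] at ha
  funext i
  have := congrFun ha i.succ
  rw [Fin.cons_succ, Fin.cons_succ] at this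
  exact this.symm

theorem rep_apt (x : Fin N → ℂ) :
    ∃ a : ℂ, a ≠ 0 ∧ (apt x).rep = a • (Fin.cons 1 x : Fin (N + 1) → ℂ) := by
  obtain ⟨a, ha⟩ := Projectivization.exists_smul_eq_mk_rep ℂ _ (cons_one_ne_zero x)
  exact ⟨a, a.ne_zero, ha.symm⟩

theorem exists_apt {p : ℙ ℂ (Fin (N + 1) → ℂ)} (hp : p.rep 0 ≠ 0) : ∃ x, p = apt x := by
  refine ⟨fun i => (p.rep 0)⁻¹ * p.rep i.succ, ?_⟩
  have h1 : p = Projectivization.mk ℂ p.rep p.rep_nonzero := (Projectivization.mk_rep p).symm
  rw [apt]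
  conv_lhs => rw [h1]
  rw [Projectivization.mk_eq_mk_iff']
  refine ⟨p.rep 0, ?_⟩
  funext i
  refine Fin.cases ?_ (fun i => ?_) i
  · simp
  · rw [Pi.smul_apply, Fin.cons_succ, smul_eq_mul, mul_inv_cancel_left₀ hp]

theorem projMap_apt {d : ℕ} {f : Fin N → MvPolynomial (Fin N) ℂ}
    (hf : ∀ i, (f i).totalDegree ≤ d) (x : Fin N → ℂ) :
    projMap (extension d f) (apt x) = apt (evalMap f x) := by
  have h1 : evalMap (extension d f) (Fin.cons 1 x) ≠ 0 := by
    rw [evalMap_extension]
    exact cons_one_ne_zero _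
  rw [apt, projMap_mk (extension_homogeneous hf) _ (cons_one_ne_zero x) h1, apt]
  congr 1
  exact evalMap_extension d f x

theorem iterate_projMap_apt {d : ℕ} {f : Fin N → MvPolynomial (Fin N) ℂ}
    (hf : ∀ i, (f i).totalDegree ≤ d) (x : Fin N → ℂ) (k : ℕ) :
    (projMap (extension d f))^[k] (apt x) = apt ((evalMap f)^[k] x) := by
  induction k with
  | zero => rfl
  | succ k ih => rw [Function.iterate_succ_apply', ih, projMap_apt hf,
      Function.iterate_succ_apply']

theorem rep_zero_projMap {d : ℕ} (hd : 0 < d) {f : Fin N → MvPolynomial (Fin N) ℂ}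
    {p : ℙ ℂ (Fin (N + 1) → ℂ)} (hp : p.rep 0 = 0) : (projMap (extension d f) p).rep 0 = 0 := by
  rw [projMap]
  split_ifs with h
  · obtain ⟨a, ha⟩ := Projectivization.exists_smul_eq_mk_rep ℂ _ h
    rw [← ha]
    have h1 : evalMap (extension d f) p.rep 0 = 0 := by
      show eval p.rep (X 0 ^ d) = 0
      rw [map_pow, eval_X, hp, zero_pow hd.ne']
    rw [Units.smul_def, Pi.smul_apply, h1, smul_zero]
  · exact hp

theorem rep_zero_iterate {d : ℕ} (hd : 0 < d) {f : Fin N → MvPolynomial (Fin N) ℂ}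
    {p : ℙ ℂ (Fin (N + 1) → ℂ)} (hp : p.rep 0 = 0) (k : ℕ) :
    ((projMap (extension d f))^[k] p).rep 0 = 0 := by
  induction k with
  | zero => exact hp
  | succ k ih =>
    rw [Function.iterate_succ_apply']
    exact rep_zero_projMap hd ih

theorem eval_jac_smul {n d : ℕ} {F : Fin n → MvPolynomial (Fin n) ℂ}
    (hF : ∀ i, (F i).IsHomogeneous d) {a : ℂ} (ha : a ≠ 0) (z : Fin n → ℂ) :
    eval (a • z) (jac F).det = 0 ↔ eval z (jac F).det = 0 := by
  have h1 := det_jac_sc 1 a F
  have h2 : (fun i => C 1 * sc a (F i)) = fun i => C (a ^ d) * F i := by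
    funext i
    rw [C_1, one_mul, sc_homogeneous (hF i)]
  have h3 : jac (fun i => C (a ^ d) * F i) = (C (a ^ d) : MvPolynomial (Fin n) ℂ) • jac F := by
    ext1 i j
    simp only [jac, Matrix.of_apply, Matrix.smul_apply, smul_eq_mul]
    rw [pderiv_C_mul]
  rw [h2, h3, Matrix.det_smul, one_mul] at h1
  have h4 := congrArg (eval z) h1
  rw [map_mul, map_mul, eval_sc, ← C_pow, eval_C, eval_C] at h4
  have h5 : eval (fun j => a * z j) (jac F).det = eval (a • z) (jac F).det := rfl
  rw [h5] at h4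
  constructor
  · intro h
    rw [h, mul_zero] at h4
    exact (mul_eq_zero.1 h4).resolve_left (pow_ne_zero _ (pow_ne_zero _ ha))
  · intro h
    rw [h, mul_zero] at h4
    exact (mul_eq_zero.1 h4.symm).resolve_left (pow_ne_zero _ ha)

theorem eval_jac_extension (d : ℕ) (f : Fin N → MvPolynomial (Fin N) ℂ) (x : Fin N → ℂ) :
    eval (Fin.cons 1 x : Fin (N + 1) → ℂ) (jac (extension d f)).det =
      d * eval x (jac f).det := by
  rw [RingHom.map_det, RingHom.mapMatrix_apply, Matrix.det_succ_row_zero, Fin.sum_univ_succ]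
  have h0 : ∀ j : Fin N, ((jac (extension d f)).map
      (eval (Fin.cons 1 x : Fin (N + 1) → ℂ))) 0 j.succ = 0 := by
    intro j
    show eval _ (pderiv j.succ (X 0 ^ d)) = 0
    rw [Derivation.leibniz_pow, pderiv_X_of_ne (Fin.succ_ne_zero j).symm, smul_zero, smul_zero,
      map_zero]
  have h00 : ((jac (extension d f)).map
      (eval (Fin.cons 1 x : Fin (N + 1) → ℂ))) 0 0 = d := by
    show eval _ (pderiv 0 (X 0 ^ d)) = _
    rw [Derivation.leibniz_pow, pderiv_X_self]
    simp
  rw [h00]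
  simp only [h0, mul_zero, zero_mul, Finset.sum_const_zero, add_zero, Fin.val_zero, pow_zero,
    one_mul]
  congr 1
  rw [RingHom.map_det, RingHom.mapMatrix_apply]
  congr 1
  ext i j
  rw [Matrix.submatrix_apply, Fin.zero_succAbove]
  show eval _ (pderiv j.succ (homog d (f i))) = eval x (pderiv j (f i))
  rw [← eval_deh, deh_pderiv_succ, deh_homog]

end Homog

section Countable

variable {N : ℕ}

/-- a nonzero polynomial divides a nonzero polynomial of the form `p' ∘ f`. -/
theorem exists_dvd_aeval {d : ℕ} (hd : 0 < d) {f : Fin N → MvPolynomial (Fin N) ℂ}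
    (hf : Regular d f) {p : MvPolynomial (Fin N) ℂ} (hp : p ≠ 0) :
    ∃ p' : MvPolynomial (Fin N) ℂ, p' ≠ 0 ∧ p ∣ aeval f p' := by
  have h1 := isIntegral_aeval hd hf.regForms (lowf_totalDegree hd hf.1)
  simp only [topf_add_lowf] at h1
  let : Algebra (MvPolynomial (Fin N) ℂ) (MvPolynomial (Fin N) ℂ) :=
    (aeval f : MvPolynomial (Fin N) ℂ →ₐ[ℂ] MvPolynomial (Fin N) ℂ).toRingHom.toAlgebra
  have hint : IsIntegral (MvPolynomial (Fin N) ℂ) p := h1 p
  have h2 := Ideal.comap_ne_bot_of_integral_mem (I := Ideal.span {p}) hp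
    (Ideal.mem_span_singleton_self _) hint
  obtain ⟨q, hq, hq0⟩ := Submodule.exists_mem_ne_zero_of_ne_bot h2
  exact ⟨q, hq0, Ideal.mem_span_singleton.1 hq⟩

/-- the forward orbit of the critical set does not cover affine space -/
theorem exists_not_postcritical {d : ℕ} (hd : 0 < d) {f : Fin N → MvPolynomial (Fin N) ℂ}
    (hf : Regular d f) : ∃ y : Fin N → ℂ, ∀ (x : Fin N → ℂ) (k : ℕ),
      eval x (jac f).det = 0 → (evalMap f)^[k] x ≠ y := by
  have hJ : (jac f).det ≠ 0 := by
    have := det_jac_ne_zero ⟨hd, hf.regForms, lowf_totalDegree hd hf.1⟩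
    simpa only [topf_add_lowf] using this
  have hstep : ∀ p : {p : MvPolynomial (Fin N) ℂ // p ≠ 0},
      ∃ p' : {p : MvPolynomial (Fin N) ℂ // p ≠ 0}, p.1 ∣ aeval f p'.1 := by
    rintro ⟨p, hp⟩
    obtain ⟨p', hp', h⟩ := exists_dvd_aeval hd hf hp
    exact ⟨⟨p', hp'⟩, h⟩
  choose nxt hnxt using hstep
  let Q : ℕ → {p : MvPolynomial (Fin N) ℂ // p ≠ 0} := fun n =>
    Nat.rec ⟨(jac f).det, hJ⟩ (fun _ p => nxt p) n
  have hQ : ∀ (x : Fin N → ℂ) (k : ℕ), eval x (jac f).det = 0 →
      eval ((evalMap f)^[k] x) (Q k).1 = 0 := by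
    intro x k hx
    induction k with
    | zero => exact hx
    | succ k ih =>
      rw [Function.iterate_succ_apply']
      obtain ⟨c, hc⟩ := hnxt (Q k)
      have h1 := congrArg (eval ((evalMap f)^[k] x)) hc
      rw [eval_aeval_pts, map_mul, ih, zero_mul] at h1
      exact h1
  obtain ⟨y, hy⟩ := exists_forall_eval_ne_zero (fun k => (Q k).1) (fun k => (Q k).2)
  refine ⟨y, fun x k hx hxy => hy k ?_⟩
  rw [← hxy]
  exact hQ x k hx

/-- For a regular PCF map the forward orbit of the critical set is contained in a hypersurface. -/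
theorem exists_kills {d : ℕ} (hd : 0 < d) {f : Fin N → MvPolynomial (Fin N) ℂ}
    (hf : Regular d f) (h : IsPCF d f) : ∃ Q : MvPolynomial (Fin N) ℂ, Q ≠ 0 ∧ Kills f Q := by
  obtain ⟨S, hS, hPC⟩ := h
  have hmem : ∀ (x : Fin N → ℂ) (k : ℕ), 1 ≤ k → eval x (jac f).det = 0 →
      apt ((evalMap f)^[k] x) ∈ PostCrit (extension d f) := by
    intro x k hk hx
    refine Set.mem_iUnion₂.2 ⟨k, hk, apt x, ?_, iterate_projMap_apt hf.1 x k⟩
    obtain ⟨a, ha, hrep⟩ := rep_apt x
    show eval (apt x).rep (jac (extension d f)).det = 0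
    rw [hrep, eval_jac_smul (extension_homogeneous hf.1) ha, eval_jac_extension, hx, mul_zero]
  have hkill : ∀ q ∈ S, Kills f (deh q) := by
    intro q hq x hx k hk
    have h1 := hmem x k hk hx
    rw [hPC] at h1
    have h2 := h1 q hq
    obtain ⟨m, hm⟩ := hS q hq
    obtain ⟨a, ha, hrep⟩ := rep_apt ((evalMap f)^[k] x)
    rw [hrep] at h2
    have h3 := eval_smul_homogeneous hm a (Fin.cons 1 ((evalMap f)^[k] x))
    have h4 : eval (a • (Fin.cons 1 ((evalMap f)^[k] x) : Fin (N + 1) → ℂ)) q =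
        a ^ m * eval (Fin.cons 1 ((evalMap f)^[k] x)) q := h3
    rw [h4, ← eval_deh] at h2
    exact (mul_eq_zero.1 h2).resolve_left (pow_ne_zero _ ha)
  by_contra hcon
  push Not at hcon
  have hz : ∀ q ∈ S, deh q = 0 := by
    intro q hq
    by_contra hne
    exact hcon _ hne (hkill q hq)
  obtain ⟨y, hy⟩ := exists_not_postcritical hd hf
  have h1 : apt y ∈ PostCrit (extension d f) := by
    rw [hPC]
    intro q hq
    obtain ⟨m, hm⟩ := hS q hq
    obtain ⟨a, ha, hrep⟩ := rep_apt y
    rw [hrep]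
    have h3 : eval (a • (Fin.cons 1 y : Fin (N + 1) → ℂ)) q =
        a ^ m * eval (Fin.cons 1 y) q := eval_smul_homogeneous hm a (Fin.cons 1 y)
    rw [h3, ← eval_deh, hz q hq, map_zero, mul_zero]
  obtain ⟨k, hk, r, hr, hrk⟩ := Set.mem_iUnion₂.1 h1
  have hr0 : r.rep 0 ≠ 0 := by
    intro h0
    have h2 := rep_zero_iterate hd (f := f) h0 k
    rw [hrk] at h2
    obtain ⟨a, ha, hrep⟩ := rep_apt y
    rw [hrep, Pi.smul_apply, Fin.cons_zero, smul_eq_mul, mul_one] at h2
    exact ha h2
  obtain ⟨x, rfl⟩ := exists_apt hr0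
  rw [iterate_projMap_apt hf.1] at hrk
  have h2 := apt_injective hrk
  refine hy x k ?_ h2
  obtain ⟨a, ha, hrep⟩ := rep_apt x
  have h3 : eval (apt x).rep (jac (extension d f)).det = 0 := hr
  rw [hrep, eval_jac_smul (extension_homogeneous hf.1) ha, eval_jac_extension] at h3
  exact (mul_eq_zero.1 h3).resolve_left (Nat.cast_ne_zero.2 hd.ne')

end Countable

end Pool.Agent.Helper98.RegEnd
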