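import Mathlib
import Pool.Agent.Helper98.RegEnd.Bridge

set_option autoImplicit false

namespace Pool.Agent.Helper98.RegEnd

open MvPolynomial
open scoped LinearAlgebra.Projectivization
open Pool.Agent.Helper98.PCF

variable {N : ℕ}

/-- pointwise proportional families of forms are proportional -/
theorem exists_const_of_proportional (hN : 2 ≤ N) {d : ℕ} (hd : 0 < d)
    {U V : Fin N → MvPolynomial (Fin N) ℂ} (hU : ∀ i, (U i).IsHomogeneous d)
    (hV : ∀ i, (V i).IsHomogeneous d) (hV0 : NoCommonZero V)
    (h : ∀ x : Fin N → ℂ, x ≠ 0 → ∃ c : ℂ, c ≠ 0 ∧ evalMap U x = c • evalMap V x) :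
    ∃ c : ℂ, c ≠ 0 ∧ ∀ x, evalMap U x = c • evalMap V x := by
  classical
  have htopV : topf d V = V := funext fun i => homogeneousComponent_eq_self (hV i)
  have hreg : Regular d V := by
    refine ⟨fun i => (hV i).totalDegree_le, fun x hx => hV0 x ?_⟩
    funext i
    have := hx i
    rw [homogeneousComponent_eq_self (hV i)] at this
    exact this
  have hforms := hreg.regForms
  rw [htopV] at hforms
  obtain ⟨M, hdM, hM1, hM⟩ := hforms.pow
  choose A hA hAX using hM
  choose! c hc0 hc using h
  let P : Fin N → MvPolynomial (Fin N) ℂ := fun k => ∑ j, A k j * U j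
  have hPhom : ∀ k, (P k).IsHomogeneous M := by
    intro k
    refine IsHomogeneous.sum _ _ _ fun j _ => ?_
    have := (hA k j).mul (hU j)
    rwa [Nat.sub_add_cancel hdM] at this
  have hPeval : ∀ k x, x ≠ 0 → eval x (P k) = c x * x k ^ M := by
    intro k x hx
    have h1 := congrArg (eval x) (hAX k)
    rw [map_pow, eval_X, map_sum] at h1
    rw [h1, map_sum, Finset.mul_sum]
    refine Finset.sum_congr rfl fun j _ => ?_
    rw [map_mul, map_mul]
    have h2 : eval x (U j) = c x * eval x (V j) := congrFun (hc x hx) j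
    rw [h2]
    ring
  have hcross : ∀ k l, P k * X l ^ M = P l * X k ^ M := by
    intro k l
    apply MvPolynomial.funext
    intro x
    rw [map_mul, map_mul, map_pow, map_pow, eval_X, eval_X]
    by_cases hx : x = 0
    · rw [hx, Pi.zero_apply, Pi.zero_apply, zero_pow (by omega), mul_zero, mul_zero]
    · rw [hPeval k x hx, hPeval l x hx]
      ring
  let one' : Fin N → ℂ := fun _ => 1
  have hone : one' ≠ 0 := by
    intro h0
    exact one_ne_zero (congrFun h0 ⟨0, by omega⟩)
  have hPne : ∀ k, P k ≠ 0 := by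
    intro k h0
    have h1 := hPeval k one' hone
    rw [h0, map_zero] at h1
    have h2 : c one' * one' k ^ M = c one' := by
      show c one' * (1 : ℂ) ^ M = c one'
      rw [one_pow, mul_one]
    rw [h2] at h1
    exact hc0 one' hone h1.symm
  have hD : ∀ k, ∃ δ : ℂ, P k = C δ * X k ^ M := by
    intro k
    obtain ⟨l, hl⟩ : ∃ l : Fin N, l ≠ k := by
      by_cases hk : k = ⟨0, by omega⟩
      · refine ⟨⟨1, by omega⟩, ?_⟩
        rw [hk]
        intro h
        have := congrArg Fin.val h
        simp at this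
      · exact ⟨⟨0, by omega⟩, fun h => hk h.symm⟩
    have h1 : (X k : MvPolynomial (Fin N) ℂ) ^ M ∣ P k := by
      refine Prime.pow_dvd_of_dvd_mul_right (X_prime (i := k)) M (b := X l ^ M) ?_
        (Dvd.intro_left (P l) (hcross k l).symm)
      intro h2
      have h3 := (X_prime (R := ℂ) (i := k)).dvd_of_dvd_pow h2
      rw [X_dvd_X] at h3
      exact hl h3.symm
    obtain ⟨D, hD⟩ := h1
    have hD0 : D ≠ 0 := by
      intro h0
      rw [h0, mul_zero] at hD
      exact hPne k hD
    have h2 : (P k).totalDegree = M + D.totalDegree := by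
      rw [hD, totalDegree_mul_of_isDomain (pow_ne_zero _ (X_ne_zero k)) hD0]
      rw [(isHomogeneous_X_pow (R := ℂ) k M).totalDegree (pow_ne_zero _ (X_ne_zero k))]
    have h3 : (P k).totalDegree ≤ M := (hPhom k).totalDegree_le
    have h4 : D.totalDegree = 0 := by omega
    rw [totalDegree_eq_zero_iff_eq_C] at h4
    refine ⟨coeff 0 D, ?_⟩
    rw [← h4, mul_comm]
    exact hD
  choose δ hδ using hD
  have hcδ : ∀ x k, x k ≠ 0 → c x = δ k := by
    intro x k hxk
    have hx : x ≠ 0 := fun h0 => hxk (congrFun h0 k)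
    have h1 := hPeval k x hx
    rw [hδ k, map_mul, eval_C, map_pow, eval_X] at h1
    exact (mul_right_cancel₀ (pow_ne_zero _ hxk) h1).symm
  have hδone : ∀ k, c one' = δ k := fun k => hcδ one' k one_ne_zero
  refine ⟨c one', hc0 one' hone, fun x => ?_⟩
  by_cases hx : x = 0
  · subst hx
    have h1 : ∀ W : Fin N → MvPolynomial (Fin N) ℂ, (∀ i, (W i).IsHomogeneous d) →
        evalMap W 0 = 0 := by
      intro W hW
      funext i
      show eval 0 (W i) = 0
      rw [eval_zero, constantCoeff_eq]
      exact (hW i).coeff_eq_zero (by simp; omega)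
    rw [h1 U hU, h1 V hV, smul_zero]
  · obtain ⟨k, hk⟩ : ∃ k, x k ≠ 0 := by
      by_contra hcon
      push Not at hcon
      exact hx (funext hcon)
    rw [hc x hx, hcδ x k hk, ← hδone k]

/-- conjugacy of the restrictions to the hyperplane at infinity, in terms of forms -/
theorem topConj_of_pglConj (hN : 2 ≤ N) {d : ℕ} (hd : 0 < d)
    {F G : Fin N → MvPolynomial (Fin N) ℂ} (hF : ∀ i, (F i).IsHomogeneous d)
    (hF0 : NoCommonZero F) (hG : ∀ i, (G i).IsHomogeneous d) (hG0 : NoCommonZero G)
    (h : PGLConj (projMap F) (projMap G)) : TopConj G F := by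
  obtain ⟨A, hA⟩ := h
  set L : Matrix (Fin N) (Fin N) ℂ := LinearMap.toMatrix' A.toLinearMap with hL
  have hLA : ∀ x, L.mulVec x = A x := fun x => LinearMap.toMatrix'_mulVec _ _
  have hLdet : IsUnit L.det := by
    rw [LinearMap.det_toMatrix']
    exact LinearEquiv.isUnit_det' A
  let lin : Fin N → MvPolynomial (Fin N) ℂ := fun j => ∑ k, C (L j k) * X k
  have hlin : ∀ j, (lin j).IsHomogeneous 1 := fun j =>
    IsHomogeneous.sum _ _ _ fun k _ => by
      have := (isHomogeneous_C (Fin N) (L j k)).mul (isHomogeneous_X ℂ k)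
      rwa [zero_add] at this
  have hevlin : ∀ x j, eval x (lin j) = A x j := by
    intro x j
    rw [← hLA]
    simp [lin, Matrix.mulVec, dotProduct]
  let U : Fin N → MvPolynomial (Fin N) ℂ := fun i => aeval lin (G i)
  let V : Fin N → MvPolynomial (Fin N) ℂ := fun i => ∑ j, C (L i j) * F j
  have hU : ∀ i, (U i).IsHomogeneous d := by
    intro i
    have := (hG i).aeval lin hlin
    rwa [one_mul] at this
  have hV : ∀ i, (V i).IsHomogeneous d := fun i =>
    IsHomogeneous.sum _ _ _ fun k _ => by
      have := (isHomogeneous_C (Fin N) (L i k)).mul (hF k)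
      rwa [zero_add] at this
  have hevU : ∀ x, evalMap U x = evalMap G (A x) := by
    intro x
    funext i
    show eval x (aeval lin (G i)) = eval (A x) (G i)
    rw [eval_aeval_pts]
    congr 2
    funext j
    exact hevlin x j
  have hevV : ∀ x, evalMap V x = A (evalMap F x) := by
    intro x
    rw [← hLA]
    funext i
    show eval x (∑ j, C (L i j) * F j) = _
    rw [map_sum]
    refine Finset.sum_congr rfl fun j _ => ?_
    rw [map_mul, eval_C]
    rfl
  have hV0 : NoCommonZero V := by
    intro x hx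
    rw [hevV] at hx
    exact hF0 x (A.map_eq_zero_iff.1 hx)
  obtain ⟨c, hc, hcx⟩ := exists_const_of_proportional hN hd hU hV hV0 (by
    intro x hx
    have h1 := hA (Projectivization.mk ℂ x hx)
    have hFx : evalMap F x ≠ 0 := fun h0 => hx (hF0 x h0)
    have hAx : A x ≠ 0 := fun h0 => hx (A.map_eq_zero_iff.1 h0)
    have hGAx : evalMap G (A x) ≠ 0 := fun h0 => hAx (hG0 _ h0)
    rw [projMap_mk hF x hx hFx, Projectivization.map_mk, Projectivization.map_mk] at h1
    have h2 := projMap_mk hG (A x) hAx hGAx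
    have h3 := h1.trans h2
    rw [eq_comm, Projectivization.mk_eq_mk_iff'] at h3
    obtain ⟨a, ha⟩ := h3
    refine ⟨a, ?_, ?_⟩
    · rintro rfl
      rw [zero_smul] at ha
      exact hGAx ha.symm
    · rw [hevU, hevV]
      exact ha.symm)
  refine ⟨L, c, hLdet, hc, fun x i => ?_⟩
  have h1 := congrFun (hcx x) i
  rw [hevU, hevV, Pi.smul_apply, smul_eq_mul] at h1
  rw [hLA, hLA]
  exact h1

end Pool.Agent.Helper98.RegEnd
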