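import Mathlib
import Pool.Agent.Helper98.RegEnd.Moduli
import Pool.Agent.Helper98.RegEnd.PCFBridge
import Pool.Agent.Helper98.RegEnd.TopBridge

set_option autoImplicit false

namespace Pool.Agent.Helper98.RegEnd

open MvPolynomial
open scoped LinearAlgebra.Projectivization
open Pool.Agent.Helper98.PCF

variable {N d : ℕ}

theorem mk_eq_mk_iff {f g : RegularEnd d N} : RSpace.mk f = RSpace.mk g ↔ AffineConj f.1 g.1 :=
  ⟨fun h => Quotient.exact h, fun h => Quotient.sound h⟩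

theorem kills_of_mem_locus (hd : 2 ≤ d) (hN : 2 ≤ N) (f : RegularEnd d N)
    (h : RSpace.mk f ∈ PCFLocus d N) : ∃ Q : MvPolynomial (Fin N) ℂ, Q ≠ 0 ∧ Kills f.1 Q := by
  obtain ⟨g, hg, hgf⟩ := h
  have h1 : AffineConj f.1 g.1 := (mk_eq_mk_iff.1 hgf).symm
  obtain ⟨L, b, hL, hc⟩ := h1.affConj
  obtain ⟨Q, hQ, hk⟩ := exists_kills (by omega) ((isRegularEnd_iff (by omega)).1 g.2) hg
  exact hc.kills hL hQ hk

theorem topConj_of_piMap_eq (hd : 2 ≤ d) (hN : 2 ≤ N) (f g : RegularEnd d N)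
    (h : piMap hd (RSpace.mk f) = piMap hd (RSpace.mk g)) :
    TopConj (topf d g.1) (topf d f.1) := by
  have h1 : PGLConj (projMap (restrict f).1) (projMap (restrict g).1) := Quotient.exact h
  exact topConj_of_pglConj hN (by omega) (restrict f).2.1 (restrict f).2.2 (restrict g).2.1
    (restrict g).2.2 h1

/-- the main theorem for families, some of whose members may fail to be regular -/
theorem family_core (hd : 2 ≤ d) (hN : 2 ≤ N) {B : Type*} [CommRing B] [IsDomain B]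
    [Algebra ℂ B] [Algebra.FiniteType ℂ B] (F : Fin N → MvPolynomial (Fin N) B)
    (hF : ∀ i, (F i).totalDegree ≤ d) (m : MSpace d N)
    (h : ∀ (t : B →ₐ[ℂ] ℂ) (f : RegularEnd d N), f.1 = (fun i => map t.toRingHom (F i)) →
      RSpace.mk f ∈ PCFLocus d N ∧ piMap hd (RSpace.mk f) = m)
    (s t : B →ₐ[ℂ] ℂ) (f g : RegularEnd d N) (hs : f.1 = fun i => map s.toRingHom (F i))
    (ht : g.1 = fun i => map t.toRingHom (F i)) : RSpace.mk f = RSpace.mk g := by
  have hN0 : 0 < N := by omega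
  let T : Set ℂ := Set.range (fun p : Fin N × (Fin N →₀ ℕ) => s (coeff p.2 (F p.1))) ∪
    Set.range (fun p : Fin N × (Fin N →₀ ℕ) => t (coeff p.2 (F p.1)))
  have hT : T.Countable := (Set.countable_range _).union (Set.countable_range _)
  obtain ⟨k₀, hTk, hk₀, hkalg⟩ := exists_small_field T hT
  have hreg : ∀ u : B →ₐ[ℂ] ℂ, Regular d (fun i => map u.toRingHom (F i)) →
      ∃ e : RegularEnd d N, e.1 = fun i => map u.toRingHom (F i) := fun u hu =>
    ⟨⟨_, (isRegularEnd_iff hN0).2 hu⟩, rfl⟩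
  have hsreg : Regular d (fun i => map s.toRingHom (F i)) := by
    rw [← hs]
    exact (isRegularEnd_iff hN0).1 f.2
  have htreg : Regular d (fun i => map t.toRingHom (F i)) := by
    rw [← ht]
    exact (isRegularEnd_iff hN0).1 g.2
  obtain ⟨G, hG⟩ := exists_model (k := k₀) (Ω := ℂ) (B := B) hd F hF
    (fun u hu => by
      obtain ⟨e, he⟩ := hreg u hu
      have h1 := kills_of_mem_locus hd hN e (h u e he).1
      rw [he] at h1
      exact h1)
    (fun u v hu hv => by
      obtain ⟨e, he⟩ := hreg u hu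
      obtain ⟨e', he'⟩ := hreg v hv
      have h1 := topConj_of_piMap_eq hd hN e e' (by rw [(h u e he).2, (h v e' he').2])
      rw [he, he'] at h1
      exact h1)
    s hsreg (fun i m => ⟨⟨_, hTk (Or.inl ⟨(i, m), rfl⟩)⟩, rfl⟩)
  have h1 := hG s hsreg (fun i m => ⟨⟨_, hTk (Or.inl ⟨(i, m), rfl⟩)⟩, rfl⟩)
  have h2 := hG t htreg (fun i m => ⟨⟨_, hTk (Or.inr ⟨(i, m), rfl⟩)⟩, rfl⟩)
  rw [← hs] at h1
  rw [← ht] at h2
  rw [mk_eq_mk_iff]
  exact (affineConj_of_affConj h1).symm.trans (affineConj_of_affConj h2)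

section Finiteness

variable {B : Type*} [CommRing B] [Algebra ℂ B] [Algebra.FiniteType ℂ B]

/-- monomials of degree at most `d` -/
abbrev Mon (N d : ℕ) : Type := {a : Fin N →₀ ℕ // a.degree ≤ d}

instance (N d : ℕ) : Finite (Mon N d) := (Finsupp.finite_of_degree_le (σ := Fin N) d).to_subtype

noncomputable instance (N d : ℕ) : Fintype (Mon N d) := Fintype.ofFinite _

/-- universal family -/
noncomputable def univ (N d : ℕ) (B : Type*) [CommRing B] (i : Fin N) :
    MvPolynomial (Fin N) (MvPolynomial (Fin N × Mon N d) B) :=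
  ∑ a : Mon N d, monomial a.1 (X (i, a))

theorem coeff_univ (i : Fin N) (a : Fin N →₀ ℕ) [Decidable (a.degree ≤ d)] :
    coeff a (univ N d B i) = if h : a.degree ≤ d then X (i, ⟨a, h⟩) else 0 := by
  classical
  rw [univ, coeff_sum]
  simp only [coeff_monomial]
  split_ifs with h
  · rw [Finset.sum_eq_single ⟨a, h⟩]
    · rw [if_pos rfl]
    · intro b _ hb
      rw [if_neg]
      intro h'
      exact hb (Subtype.ext h')
    · intro h'
      exact absurd (Finset.mem_univ _) h'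
  · refine Finset.sum_eq_zero fun b _ => ?_
    rw [if_neg]
    rintro rfl
    exact h b.2

theorem totalDegree_univ (i : Fin N) : (univ N d B i).totalDegree ≤ d := by
  refine totalDegree_finsetSum_le fun a _ => ?_
  refine (totalDegree_monomial_le _ _).trans ?_
  have := a.2
  rwa [Finsupp.degree_apply] at this

/-- truncation of the coordinates -/
noncomputable def trunc (N d : ℕ) (B : Type*) [CommRing B] :
    MvPolynomial (Fin N × (Fin N →₀ ℕ)) B →ₐ[B] MvPolynomial (Fin N × Mon N d) B :=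
  aeval fun p => coeff p.2 (univ N d B p.1)

theorem eval₂_trunc {t : B →+* ℂ} {τ : MvPolynomial (Fin N × Mon N d) B →+* ℂ}
    (hτ : τ.comp C = t) (p : MvPolynomial (Fin N × (Fin N →₀ ℕ)) B) :
    τ (trunc N d B p) = eval₂ t (coeffs fun i => map τ (univ N d B i)) p := by
  have h : τ.comp (trunc N d B : _ →ₐ[B] _).toRingHom =
      eval₂Hom t (coeffs fun i => map τ (univ N d B i)) := by
    apply MvPolynomial.ringHom_ext
    · intro r
      show τ (trunc N d B (C r)) = _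
      rw [trunc, aeval_C, eval₂Hom_C, ← hτ]
      rfl
    · intro q
      show τ (trunc N d B (X q)) = _
      rw [trunc, aeval_X, eval₂Hom_X', coeffs, coeff_map]
  exact RingHom.congr_fun h p

/-- the point of the parameter space corresponding to a polynomial endomorphism -/
noncomputable def ptOf (t : B →ₐ[ℂ] ℂ) (f : Fin N → MvPolynomial (Fin N) ℂ) :
    MvPolynomial (Fin N × Mon N d) B →ₐ[ℂ] ℂ where
  toRingHom := eval₂Hom (t : B →+* ℂ) (fun p => coeff p.2.1 (f p.1))
  commutes' r := by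
    show eval₂Hom (t : B →+* ℂ) (fun p : Fin N × Mon N d => coeff p.2.1 (f p.1))
      (C (algebraMap ℂ B r)) = r
    rw [eval₂Hom_C]
    exact t.commutes r

theorem map_ptOf (t : B →ₐ[ℂ] ℂ) {f : Fin N → MvPolynomial (Fin N) ℂ}
    (hf : ∀ i, (f i).totalDegree ≤ d) (i : Fin N) :
    map (ptOf (d := d) t f).toRingHom (univ N d B i) = f i := by
  classical
  ext a
  rw [coeff_map, coeff_univ]
  split_ifs with h
  · show eval₂Hom (t : B →+* ℂ) (fun p : Fin N × Mon N d => coeff p.2.1 (f p.1))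
      (X (i, ⟨a, h⟩)) = _
    rw [eval₂Hom_X']
  · rw [map_zero]
    symm
    apply coeff_eq_zero_of_totalDegree_lt
    refine lt_of_le_of_lt (hf i) ?_
    rw [← Finsupp.degree_apply]
    omega

/-- **Finiteness.** Over an algebraic set of pairs `(t, f)` with all `f` PCF and in one fibre of
`π`, there are only finitely many conjugacy classes. -/
theorem finite_classes (hd : 2 ≤ d) (hN : 2 ≤ N)
    (S : Set (MvPolynomial (Fin N × (Fin N →₀ ℕ)) B)) (m : MSpace d N)
    (h : ∀ (t : B →ₐ[ℂ] ℂ) (f : RegularEnd d N),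
      (∀ p ∈ S, eval₂ (t : B →+* ℂ) (coeffs f.1) p = 0) →
        RSpace.mk f ∈ PCFLocus d N ∧ piMap hd (RSpace.mk f) = m) :
    {x : RSpace d N | ∃ (t : B →ₐ[ℂ] ℂ) (f : RegularEnd d N), RSpace.mk f = x ∧
      ∀ p ∈ S, eval₂ (t : B →+* ℂ) (coeffs f.1) p = 0}.Finite := by
  classical
  have hN0 : 0 < N := by omega
  have hBn : IsNoetherianRing B := Algebra.FiniteType.isNoetherianRing ℂ B
  let T := MvPolynomial (Fin N × Mon N d) B
  let 𝔞 : Ideal T := Ideal.span (trunc N d B '' S)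
  have hfin : 𝔞.minimalPrimes.Finite := Ideal.finite_minimalPrimes_of_isNoetherianRing T 𝔞
  -- classes belonging to a minimal prime
  let cls : Ideal T → Set (RSpace d N) := fun 𝔭 => {x | ∃ (τ : (T ⧸ 𝔭) →ₐ[ℂ] ℂ)
    (f : RegularEnd d N), RSpace.mk f = x ∧ f.1 = fun i => map τ.toRingHom
      (map (Ideal.Quotient.mk 𝔭) (univ N d B i))}
  have hsub : ∀ 𝔭 ∈ 𝔞.minimalPrimes, (cls 𝔭).Subsingleton := by
    intro 𝔭 h𝔭
    have hprime : 𝔭.IsPrime := h𝔭.1.1
    have hle : 𝔞 ≤ 𝔭 := h𝔭.1.2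
    have : IsDomain (T ⧸ 𝔭) := Ideal.Quotient.isDomain 𝔭
    have : Algebra.FiniteType ℂ (T ⧸ 𝔭) :=
      Algebra.FiniteType.of_surjective (Ideal.Quotient.mkₐ ℂ 𝔭) (Ideal.Quotient.mkₐ_surjective ℂ 𝔭)
    rintro x ⟨τ, f, rfl, hf⟩ y ⟨τ', g, rfl, hg⟩
    refine family_core hd hN (fun i => map (Ideal.Quotient.mk 𝔭) (univ N d B i)) (fun i => ?_) m
      ?_ τ τ' f g hf hg
    · exact (totalDegree_map_le' _ _).trans (totalDegree_univ i)
    · intro u e he
      let τu : T →+* ℂ := u.toRingHom.comp (Ideal.Quotient.mk 𝔭)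
      let t : B →ₐ[ℂ] ℂ := (u.comp (Ideal.Quotient.mkₐ ℂ 𝔭)).comp
        (IsScalarTower.toAlgHom ℂ B T)
      have he' : e.1 = fun i => map τu (univ N d B i) := by
        rw [he]
        funext i
        rw [map_map]
      refine h t e fun p hp => ?_
      have h1 := eval₂_trunc (t := (t : B →+* ℂ)) (τ := τu) rfl p
      rw [← he'] at h1
      rw [← h1]
      have h2 : trunc N d B p ∈ 𝔭 := hle (Ideal.subset_span ⟨p, hp, rfl⟩)
      show u (Ideal.Quotient.mk 𝔭 (trunc N d B p)) = 0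
      rw [Ideal.Quotient.eq_zero_iff_mem.2 h2, map_zero]
  refine (hfin.biUnion (t := cls) fun 𝔭 h𝔭 => (hsub 𝔭 h𝔭).finite).subset ?_
  rintro x ⟨t, f, rfl, hS⟩
  have hfd : ∀ i, (f.1 i).totalDegree ≤ d := ((isRegularEnd_iff hN0).1 f.2).1
  let τ : T →ₐ[ℂ] ℂ := ptOf (d := d) t f.1
  have hτ : ∀ i, map τ.toRingHom (univ N d B i) = f.1 i := map_ptOf t hfd
  have hker : 𝔞 ≤ RingHom.ker τ.toRingHom := by
    rw [Ideal.span_le]
    rintro _ ⟨p, hp, rfl⟩
    show τ.toRingHom (trunc N d B p) = 0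
    have h1 := eval₂_trunc (t := (t : B →+* ℂ)) (τ := τ.toRingHom) (by
      ext r
      show eval₂Hom (t : B →+* ℂ) (fun p : Fin N × Mon N d => coeff p.2.1 (f.1 p.1)) (C r) = _
      rw [eval₂Hom_C]) p
    have h2 : (fun i => map τ.toRingHom (univ N d B i)) = f.1 := funext hτ
    rw [h2, hS p hp] at h1
    exact h1
  have hkp : (RingHom.ker τ.toRingHom).IsPrime := RingHom.ker_isPrime _
  obtain ⟨𝔭, h𝔭, h𝔭le⟩ := Ideal.exists_minimalPrimes_le hker
  refine Set.mem_biUnion h𝔭 ⟨Ideal.Quotient.liftₐ 𝔭 τ (fun a ha => h𝔭le ha), f, rfl, ?_⟩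
  funext i
  rw [map_map]
  have h3 : (Ideal.Quotient.liftₐ 𝔭 τ (fun a ha => h𝔭le ha)).toRingHom.comp
      (Ideal.Quotient.mk 𝔭) = τ.toRingHom := by
    ext a <;> rfl
  rw [h3]
  exact (hτ i).symm

end Finiteness

end Pool.Agent.Helper98.RegEnd
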