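import Mathlib
import Pool.Agent.Helper98.RegEnd.Main

set_option autoImplicit false

namespace Pool.Agent.Helper98.RegEnd

open MvPolynomial
open scoped LinearAlgebra.Projectivization
open Pool.Agent.Helper98.PCF

variable {N d : ℕ}

/-- constructible subsets of a fibre of `π` consisting of PCF maps are finite -/
theorem finite_of_constructible (hd : 2 ≤ d) (hN : 2 ≤ N) (Z : Set (RSpace d N))
    (m : MSpace d N) (hZ : IsConstructible Z) (hPCF : Z ⊆ PCFLocus d N)
    (hm : ∀ x ∈ Z, piMap hd x = m) : Z.Finite := by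
  classical
  obtain ⟨r, S, q, hSq⟩ := hZ
  let I := Fin N × (Fin N →₀ ℕ)
  let B := MvPolynomial Unit ℂ
  let S' : Fin r → Set (MvPolynomial I B) := fun j =>
    insert (C (X ()) * map (algebraMap ℂ B) (q j) - 1) ((fun p => map (algebraMap ℂ B) p) '' S j)
  have hev : ∀ (t : B →ₐ[ℂ] ℂ) (f : Fin N → MvPolynomial (Fin N) ℂ) (p : MvPolynomial I ℂ),
      eval₂ (t : B →+* ℂ) (coeffs f) (map (algebraMap ℂ B) p) = eval (coeffs f) p := by
    intro t f p
    rw [eval₂_map]
    have : (t : B →+* ℂ).comp (algebraMap ℂ B) = RingHom.id ℂ := by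
      ext c
      exact t.commutes c
    rw [this]
    rfl
  have hfin : ∀ j, {x : RSpace d N | ∃ (t : B →ₐ[ℂ] ℂ) (f : RegularEnd d N), RSpace.mk f = x ∧
      ∀ p ∈ S' j, eval₂ (t : B →+* ℂ) (coeffs f.1) p = 0}.Finite := by
    intro j
    refine finite_classes hd hN (S' j) m fun t f hf => ?_
    have hZf : RSpace.mk f ∈ Z := by
      rw [hSq]
      refine ⟨j, fun p hp => ?_, fun h0 => ?_⟩
      · have h1 := hf _ (Set.mem_insert_of_mem _ ⟨p, hp, rfl⟩)
        rw [hev] at h1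
        exact h1
      · have h1 := hf _ (Set.mem_insert _ _)
        rw [eval₂_sub, eval₂_mul, hev, h0, mul_zero, eval₂_one, zero_sub, neg_eq_zero] at h1
        exact one_ne_zero h1
    exact ⟨hPCF hZf, hm _ hZf⟩
  refine (Set.finite_iUnion hfin).subset ?_
  intro x hx
  obtain ⟨f, rfl⟩ : ∃ f, RSpace.mk f = x := Quotient.exists_rep x
  obtain ⟨j, hS, hq⟩ := (hSq f).1 hx
  refine Set.mem_iUnion.2 ⟨j, aeval (fun _ => (eval (coeffs f.1) (q j))⁻¹), f, rfl, ?_⟩
  intro p hp
  rcases hp with rfl | ⟨p, hp, rfl⟩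
  · rw [eval₂_sub, eval₂_mul, hev, eval₂_C, eval₂_one]
    have h1 : ((aeval (fun _ => (eval (coeffs f.1) (q j))⁻¹) : B →ₐ[ℂ] ℂ) : B →+* ℂ) (X ()) =
        (eval (coeffs f.1) (q j))⁻¹ := aeval_X _ _
    rw [h1, inv_mul_cancel₀ hq, sub_self]
  · rw [hev]
    exact hS p hp

/-- morphisms from irreducible varieties -/
theorem constant_of_closedGraph (hd : 2 ≤ d) (hN : 2 ≤ N) {B : Type} [CommRing B] [IsDomain B]
    [Algebra ℂ B] [Algebra.FiniteType ℂ B] (φ : (B →ₐ[ℂ] ℂ) → RSpace d N) (m : MSpace d N)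
    (hφ : HasClosedGraph φ) (hPCF : ∀ t, φ t ∈ PCFLocus d N) (hm : ∀ t, piMap hd (φ t) = m)
    (s t : B →ₐ[ℂ] ℂ) : φ s = φ t := by
  classical
  obtain ⟨S, hS⟩ := hφ
  have hfin := finite_classes hd hN S m (fun t f hf => by
    rw [← (hS t f).2 hf]
    exact ⟨hPCF t, hm t⟩)
  have hrange : (Set.range φ).Finite := by
    refine hfin.subset ?_
    rintro _ ⟨t, rfl⟩
    obtain ⟨f, hf⟩ : ∃ f, RSpace.mk f = φ t := Quotient.exists_rep _
    exact ⟨t, f, hf, (hS t f).1 hf.symm⟩
  by_contra hne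
  -- for every class an element of `B` vanishing where the class is attained
  have hb : ∀ x : RSpace d N, ∃ b : B, b ≠ 0 ∧ ∀ t, φ t = x → t b = 0 := by
    intro x
    obtain ⟨f, rfl⟩ : ∃ f, RSpace.mk f = x := Quotient.exists_rep x
    obtain ⟨u, hu⟩ : ∃ u, φ u ≠ RSpace.mk f := by
      by_contra hcon
      push Not at hcon
      exact hne ((hcon s).trans (hcon t).symm)
    obtain ⟨p, hp, hpu⟩ : ∃ p ∈ S, eval₂ (u : B →+* ℂ) (coeffs f.1) p ≠ 0 := by
      by_contra hcon
      push Not at hcon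
      exact hu ((hS u f).2 hcon)
    have hev : ∀ t : B →ₐ[ℂ] ℂ, t (eval (fun a => algebraMap ℂ B (coeffs f.1 a)) p) =
        eval₂ (t : B →+* ℂ) (coeffs f.1) p := by
      intro t
      have h1 : (t : B →+* ℂ).comp (eval (fun a => algebraMap ℂ B (coeffs f.1 a))) =
          eval₂Hom (t : B →+* ℂ) (coeffs f.1) := by
        apply MvPolynomial.ringHom_ext
        · intro r
          simp
        · intro q
          rw [RingHom.comp_apply, eval_X, eval₂Hom_X']
          exact t.commutes _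
      exact RingHom.congr_fun h1 p
    refine ⟨eval (fun a => algebraMap ℂ B (coeffs f.1 a)) p, ?_, ?_⟩
    · intro h0
      apply hpu
      rw [← hev, h0, map_zero]
    · intro t ht
      rw [hev]
      exact (hS t f).1 ht p hp
  choose b hb0 hbt using hb
  obtain ⟨u, hu⟩ := exists_generic_point (k := ℂ) (R := B) (S := b '' Set.range φ)
    (hrange.image b).countable (by
      rintro ⟨x, -, hx⟩
      exact hb0 x hx)
  exact hu _ ⟨φ u, ⟨u, rfl⟩, rfl⟩ (hbt _ u rfl)

/-- families over irreducible varieties -/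
theorem constant_of_family (hd : 2 ≤ d) (hN : 2 ≤ N) {B : Type} [CommRing B] [IsDomain B]
    [Algebra ℂ B] [Algebra.FiniteType ℂ B] (f : Fin N → MvPolynomial (Fin N) B)
    (hf : ∀ t : B →ₐ[ℂ] ℂ, IsRegularEnd d (member f t)) (m : MSpace d N)
    (hPCF : ∀ t, RSpace.mk ⟨member f t, hf t⟩ ∈ PCFLocus d N)
    (hm : ∀ t, piMap hd (RSpace.mk ⟨member f t, hf t⟩) = m) (s t : B →ₐ[ℂ] ℂ) :
    RSpace.mk ⟨member f s, hf s⟩ = RSpace.mk ⟨member f t, hf t⟩ := by
  refine family_core hd hN f (fun i => ?_) m ?_ s t ⟨member f s, hf s⟩ ⟨member f t, hf t⟩ rfl rfl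
  · refine Finset.sup_le fun a ha => ?_
    by_contra hlt
    push Not at hlt
    obtain ⟨u, hu⟩ := exists_generic_point (k := ℂ) (R := B) (S := {coeff a (f i)})
      (Set.countable_singleton _) (by
        rw [Set.mem_singleton_iff]
        exact (mem_support_iff.1 ha).symm)
    apply hu _ rfl
    have h1 := ((isRegularEnd_iff (by omega)).1 (hf u)).1 i
    have h2 : coeff a (member f u i) = u (coeff a (f i)) := coeff_map _ _ _
    rw [← h2]
    exact coeff_eq_zero_of_totalDegree_lt (lt_of_le_of_lt h1 hlt)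
  · rintro u ⟨g, hg⟩ rfl
    exact ⟨hPCF u, hm u⟩

end Pool.Agent.Helper98.RegEnd
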